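import Mathlib

/-!
# An isotropic subgroup of `(F_2^2)^ι` misses one of the coordinate Lagrangians
-/

set_option autoImplicit false
set_option linter.style.haveILetI false

namespace Pool.H20.HYP

open Finset

variable {ι : Type*}

/-- version relative to a finite set `T` of indices. -/
theorem lag_aux [DecidableEq ι] (T : Finset ι) :
    ∀ M : AddSubgroup (ι → ZMod 2 × ZMod 2),
      (∀ x ∈ M, ∀ y ∈ M, ∑ i ∈ T, ((x i).1 * (y i).2 + (x i).2 * (y i).1) = 0) →
      ∃ d : ι → Bool, ∀ x ∈ M, (∀ i ∈ T, if d i then (x i).1 = 0 else (x i).2 = 0) →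
        ∀ i ∈ T, x i = 0 := by
  induction T using Finset.induction_on with
  | empty => exact fun M _ => ⟨fun _ => true, fun x _ _ i hi => by simp at hi⟩
  | insert a T ha ih =>
    intro M hM
    -- choose the coordinate line at `a`
    have hch : ∃ s : Bool, ∀ x ∈ M, (∀ i ∈ T, x i = 0) →
        (if s then (x a).1 = 0 else (x a).2 = 0) → x a = 0 := by
      by_contra hcon
      push Not at hcon
      obtain ⟨x, hx, hx0, hx1, hx2⟩ := hcon true
      obtain ⟨y, hy, hy0, hy1, hy2⟩ := hcon false
      simp only [if_true] at hx1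
      simp only [Bool.false_eq_true, if_false] at hy1
      have h1 := hM x hx y hy
      rw [Finset.sum_insert ha] at h1
      have h2 : ∑ i ∈ T, ((x i).1 * (y i).2 + (x i).2 * (y i).1) = 0 :=
        Finset.sum_eq_zero fun i hi => by rw [hx0 i hi]; simp
      rw [h2, add_zero, hx1, zero_mul, zero_add] at h1
      have hx3 : (x a).2 ≠ 0 := fun h => hx2 (Prod.ext hx1 h)
      have hy3 : (y a).1 ≠ 0 := fun h => hy2 (Prod.ext h hy1)
      exact (mul_ne_zero hx3 hy3) h1
    obtain ⟨s, hs⟩ := hch
    -- the subgroup with `a`-component in the line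
    let M' : AddSubgroup (ι → ZMod 2 × ZMod 2) :=
      { carrier := {x | x ∈ M ∧ if s then (x a).1 = 0 else (x a).2 = 0}
        zero_mem' := ⟨M.zero_mem, by cases s <;> simp⟩
        add_mem' := by
          rintro x y ⟨hx, hx'⟩ ⟨hy, hy'⟩
          refine ⟨M.add_mem hx hy, ?_⟩
          cases s <;> simp_all
        neg_mem' := by
          rintro x ⟨hx, hx'⟩
          refine ⟨M.neg_mem hx, ?_⟩
          cases s <;> simp_all }
    obtain ⟨d, hd⟩ := ih M' (by
      rintro x ⟨hx, hx'⟩ y ⟨hy, hy'⟩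
      have h1 := hM x hx y hy
      rw [Finset.sum_insert ha] at h1
      have h2 : (x a).1 * (y a).2 + (x a).2 * (y a).1 = 0 := by
        cases s
        · simp only [Bool.false_eq_true, if_false] at hx' hy'
          rw [hx', hy']; simp
        · simp only [if_true] at hx' hy'
          rw [hx', hy']; simp
      rwa [h2, zero_add] at h1)
    refine ⟨Function.update d a s, fun x hx hxT => ?_⟩
    have h1 : if s then (x a).1 = 0 else (x a).2 = 0 := by
      have := hxT a (Finset.mem_insert_self a T)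
      rwa [Function.update_self] at this
    have h2 : ∀ i ∈ T, x i = 0 := by
      refine hd x ⟨hx, h1⟩ fun i hi => ?_
      have := hxT i (Finset.mem_insert_of_mem hi)
      rwa [Function.update_of_ne (show i ≠ a from fun h => ha (h ▸ hi))] at this
    intro i hi
    rcases Finset.mem_insert.1 hi with rfl | hi
    · exact hs x hx h2 h1
    · exact h2 i hi

/-- an isotropic subgroup of `(F_2^2)^ι` misses one of the `2^ι` coordinate Lagrangians. -/
theorem lag [Fintype ι] [DecidableEq ι] (M : AddSubgroup (ι → ZMod 2 × ZMod 2))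
    (hM : ∀ x ∈ M, ∀ y ∈ M, ∑ i, ((x i).1 * (y i).2 + (x i).2 * (y i).1) = 0) :
    ∃ d : ι → Bool, ∀ x ∈ M, (∀ i, if d i then (x i).1 = 0 else (x i).2 = 0) → x = 0 := by
  obtain ⟨d, hd⟩ := lag_aux Finset.univ M hM
  exact ⟨d, fun x hx h => funext fun i => hd x hx (fun i _ => h i) i (Finset.mem_univ i)⟩

end Pool.H20.HYP

namespace Pool.HYP

/-- LIN. -/
theorem lin (ι : Type) [Fintype ι] (M : Set (ι → ZMod 2 × ZMod 2))
    (hadd : ∀ x ∈ M, ∀ y ∈ M, x + y ∈ M) (hq : ∀ x ∈ M, ∑ i, (x i).1 * (x i).2 = 0) :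
    ∃ S : Set ι, ∀ x ∈ M, (∀ i ∈ S, (x i).2 = 0) → (∀ i ∉ S, (x i).1 = 0) → x = 0 := by
  classical
  rcases M.eq_empty_or_nonempty with rfl | ⟨m, hm⟩
  · exact ⟨∅, fun x hx => absurd hx (Set.notMem_empty x)⟩
  have h2 : ∀ x : ι → ZMod 2 × ZMod 2, x + x = 0 := by
    intro x
    funext i
    exact Prod.ext (CharTwo.add_self_eq_zero _) (CharTwo.add_self_eq_zero _)
  let M' : AddSubgroup (ι → ZMod 2 × ZMod 2) :=
    { carrier := M
      zero_mem' := h2 m ▸ hadd m hm m hm
      add_mem' := fun {x y} hx hy => hadd x hx y hy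
      neg_mem' := by
        intro x hx
        have : -x = x := neg_eq_of_add_eq_zero_left (h2 x)
        rw [this]; exact hx }
  obtain ⟨d, hd⟩ := Pool.H20.HYP.lag M' (by
    intro x hx y hy
    have h1 := hq _ (hadd x hx y hy)
    have h3 := hq x hx
    have h4 := hq y hy
    have h5 : ∑ i, ((x i).1 * (y i).2 + (x i).2 * (y i).1) =
        ∑ i, ((x + y) i).1 * ((x + y) i).2 - ∑ i, (x i).1 * (x i).2 -
          ∑ i, (y i).1 * (y i).2 := by
      rw [← Finset.sum_sub_distrib, ← Finset.sum_sub_distrib]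
      refine Finset.sum_congr rfl fun i _ => ?_
      simp only [Pi.add_apply, Prod.fst_add, Prod.snd_add]
      ring
    rw [h5, h1, h3, h4]; simp)
  refine ⟨{i | d i = false}, fun x hx h3 h4 => hd x hx fun i => ?_⟩
  by_cases hi : d i = false
  · rw [hi]
    simpa using h3 i hi
  · have hi' : d i = true := by simpa using hi
    rw [hi']
    simpa using h4 i hi

end Pool.HYP
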