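import Pool.Agent.H20.HYP.TRNa

/-!
# HYP, module TRN: translation of `x`
-/

set_option autoImplicit false

namespace Pool.HYP.H20

open Polynomial

section Equiv

variable {K : Type} [Field K]

lemma algEquiv_apply (r : K) (p : K[X]) :
    (algEquivAevalXAddC r : K[X] ≃ₐ[K] K[X]) p = p.comp (X + C r) := by
  simp [algEquivAevalXAddC, algEquivOfCompEqX, aeval_def, Polynomial.comp]

/-- The translation `K[x]/(f) ≃ K[x]/(f(x + r))`. -/
noncomputable def trE (f f' : K[X]) (r : K) (h : f' = f.comp (X + C r)) :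
    AdjoinRoot f ≃ₐ[K] AdjoinRoot f' :=
  Ideal.quotientEquivAlg (Ideal.span {f}) (Ideal.span {f'}) (algEquivAevalXAddC r) (by
    rw [Ideal.map_span, Set.image_singleton]
    rw [h, ← algEquiv_apply]
    rfl)

lemma trE_mk (f f' : K[X]) (r : K) (h : f' = f.comp (X + C r)) (p : K[X]) :
    trE f f' r h (AdjoinRoot.mk f p) = AdjoinRoot.mk f' (p.comp (X + C r)) := by
  have h1 : trE f f' r h (AdjoinRoot.mk f p) =
      AdjoinRoot.mk f' ((algEquivAevalXAddC r : K[X] ≃ₐ[K] K[X]) p) := rfl
  rw [h1, algEquiv_apply]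

lemma locSol_comp {L : Type} [Field L] {f p : L[X]} (r : L) (h : LocSol f p) :
    LocSol (f.comp (X + C r)) (p.comp (X + C r)) := by
  obtain ⟨u, w, s, hu, hc, hd, hs⟩ := h
  refine ⟨u.comp (X + C r), w.comp (X + C r), s.comp (X + C r), monic_comp_add hu r, ?_, ?_, ?_⟩
  · obtain ⟨a, b, hab⟩ := hc
    refine ⟨a.comp (X + C r), b.comp (X + C r), ?_⟩
    have := congrArg (fun p => p.comp (X + C r)) hab
    simpa only [add_comp, mul_comp, one_comp] using this
  · obtain ⟨a, ha⟩ := hd
    refine ⟨a.comp (X + C r), ?_⟩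
    have := congrArg (fun p => p.comp (X + C r)) ha
    simpa only [sub_comp, mul_comp, pow_comp] using this
  · obtain ⟨a, ha⟩ := hs
    refine ⟨a.comp (X + C r), ?_⟩
    have := congrArg (fun p => p.comp (X + C r)) ha
    rw [natDegree_comp_add]
    simpa only [sub_comp, mul_comp, pow_comp, neg_comp, one_comp] using this

end Equiv

section Sel

variable {F : Type} [Field F]

lemma locAt_iff (L : Type) [Field L] [Algebra (RatFunc F) L] (f f' : F[X][X]) (r : F[X])
    (hK : fK f' = (fK f).comp (X + C (algebraMap F[X] (RatFunc F) r)))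
    (u : (Alg f)ˣ) (u' : (Alg f')ˣ)
    (hu : (u' : Alg f') = trE (fK f) (fK f') _ hK (u : Alg f)) :
    LocAt L f u ↔ LocAt L f' u' := by
  set ρ := algebraMap F[X] (RatFunc F) r with hρ
  set σ := algebraMap (RatFunc F) L with hσ
  have eK : (fK f').map σ = ((fK f).map σ).comp (X + C (σ ρ)) := by
    rw [hK, Polynomial.map_comp]; simp
  constructor
  · rintro ⟨p, hp, hs⟩
    refine ⟨p.comp (X + C ρ), ?_, ?_⟩
    · rw [hu, ← hp, trE_mk]
    · have := locSol_comp (σ ρ) hs
      rw [eK, Polynomial.map_comp]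
      simpa using this
  · rintro ⟨p, hp, hs⟩
    refine ⟨p.comp (X + C (-ρ)), ?_, ?_⟩
    · apply (trE (fK f) (fK f') _ hK).injective
      rw [trE_mk, comp_comp_add', hp, hu]
    · have := locSol_comp (-σ ρ) hs
      rw [eK, comp_comp_add] at this
      rw [Polynomial.map_comp]
      simpa using this

lemma sel_ncard (f f' : F[X][X]) (r : F[X]) (h : f' = f.comp (X + C r)) :
    (Sel f').ncard = (Sel f).ncard := by
  classical
  have hK : fK f' = (fK f).comp (X + C (algebraMap F[X] (RatFunc F) r)) := by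
    rw [h]; simp [fK, Polynomial.map_comp]
  set E := trE (fK f) (fK f') _ hK with hE
  set e : (Alg f)ˣ ≃* (Alg f')ˣ := Units.mapEquiv (E : Alg f ≃* Alg f') with he
  have hSq : (Sq f).map (e : (Alg f)ˣ →* (Alg f')ˣ) = Sq f' := by
    ext x
    constructor
    · rintro ⟨y, ⟨z, hz⟩, hy⟩
      refine ⟨e z, ?_⟩
      rw [← hy, ← hz]
      exact (map_pow e z 2).symm
    · rintro ⟨z, hz⟩
      refine ⟨e.symm x, ⟨e.symm z, ?_⟩, e.apply_symm_apply x⟩
      rw [← hz]
      exact (map_pow e.symm z 2).symm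
  set Q : ((Alg f)ˣ ⧸ Sq f) ≃* ((Alg f')ˣ ⧸ Sq f') := QuotientGroup.congr _ _ e hSq with hQ
  have hQmk : ∀ u : (Alg f)ˣ, Q (QuotientGroup.mk u) = QuotientGroup.mk (e u) := fun u => rfl
  have key : ∀ u : (Alg f)ˣ,
      (IsSquare (Algebra.norm (RatFunc F) (u : Alg f)) ∧
        (∀ v : IsDedekindDomain.HeightOneSpectrum F[X], LocAt (v.adicCompletion (RatFunc F)) f u) ∧
        LocAt (RatFunc.CompletionAtInfty F) f u) ↔
      (IsSquare (Algebra.norm (RatFunc F) ((e u : (Alg f')ˣ) : Alg f')) ∧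
        (∀ v : IsDedekindDomain.HeightOneSpectrum F[X],
          LocAt (v.adicCompletion (RatFunc F)) f' (e u)) ∧
        LocAt (RatFunc.CompletionAtInfty F) f' (e u)) := by
    intro u
    have h1 : Algebra.norm (RatFunc F) ((e u : (Alg f')ˣ) : Alg f') =
        Algebra.norm (RatFunc F) (u : Alg f) :=
      Algebra.norm_eq_of_algEquiv E (u : Alg f)
    rw [h1]
    refine and_congr Iff.rfl (and_congr (forall_congr' fun v => ?_) ?_)
    · exact locAt_iff _ f f' r hK u (e u) rfl
    · exact locAt_iff _ f f' r hK u (e u) rfl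
  have hS : Sel f' = Q '' Sel f := by
    ext ξ
    constructor
    · rintro ⟨u, hu, hh⟩
      refine ⟨QuotientGroup.mk (e.symm u), ⟨e.symm u, rfl, ?_⟩, ?_⟩
      · rw [key (e.symm u)]
        rw [e.apply_symm_apply]
        exact hh
      · rw [hQmk, e.apply_symm_apply]
        exact hu
    · rintro ⟨η, ⟨u, hu, hh⟩, hη⟩
      refine ⟨e u, ?_, (key u).1 hh⟩
      rw [← hQmk, hu, hη]
  rw [hS, Set.ncard_image_of_injective _ Q.injective]

end Sel

theorem trn_aux : TRNStmt := by
  intro F _ _ g h f c hf hc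
  have e : (X - C c : F[X][X]) = X + C (-c) := by rw [C_neg, sub_eq_add_neg]
  have hc' : (-c).natDegree ≤ h := by rwa [natDegree_neg]
  refine ⟨?_, ?_, ?_, ?_, coeff_2g hf c⟩
  · rw [e]; exact hyp_comp hf _ hc'
  · exact sel_ncard f _ (-c) (by rw [e])
  · rw [e]
    constructor
    · intro h1
      have := mini_comp c h1
      rwa [comp_comp_add'] at this
    · exact mini_comp _
  · rw [e, top_comp hf.2.2.1 hf.2.1.le _ hc']
    exact irreducible_comp_add _ _

end Pool.HYP.H20

namespace Pool.HYP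

theorem trn : TRNStmt := H20.trn_aux

end Pool.HYP
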