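import Pool.Agent.H41.HYP.S2

/-!
# HYP, module EV2: if all orders of `h` are even, then `h` is a square times a unit
-/

set_option autoImplicit false

namespace Pool.HYP.H20

open Polynomial Pool.AVS IsLocalRing

lemma coprime_of_residue {R : Type} [CommRing R] [IsLocalRing R] {f x : R[X]} (hf : f.Monic)
    (h : IsCoprime (x.map (residue R)) (f.map (residue R))) : IsCoprime x f := by
  have h1 : IsUnit (resultant (f.map (residue R)) (x.map (residue R))) :=
    (isUnit_resultant_iff_isCoprime (hf.map _)).2 h.symm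
  have h2 : IsUnit (resultant f x) := by
    rw [← residue_ne_zero_iff_isUnit]
    have h3 : residue R (resultant f x) =
        resultant (f.map (residue R)) (x.map (residue R)) f.natDegree x.natDegree := by
      rw [resultant_map_map]
    rw [h3]
    have h4 : (x.map (residue R)).natDegree ≤ x.natDegree := natDegree_map_le
    obtain ⟨k, hk⟩ := Nat.exists_eq_add_of_le h4
    rw [hk, resultant_add_right_deg _ _ _ _ _ le_rfl, coeff_map, hf.coeff_natDegree, map_one,
      one_pow, one_mul]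
    have h5 : f.natDegree = (f.map (residue R)).natDegree := (hf.natDegree_map _).symm
    rw [h5]
    exact h1.ne_zero
  exact ((isUnit_resultant_iff_isCoprime hf).1 h2).symm

section Local

variable {L : Type} [Field L] {O : ValuationSubring L} {π : L}

lemma res_zero (H : Loc L O π) {ϖ : O} (hϖ : (ϖ : L) = π) (x : O) (hx : residue O x = 0) :
    ∃ y : O, x = ϖ * y := by
  by_cases h0 : x = 0
  · exact ⟨0, by simp [h0]⟩
  have hx' : (x : L) ≠ 0 := fun h => h0 (Subtype.ext h)
  have h1 : (x : L)⁻¹ ∉ O := by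
    intro h
    have hu : IsUnit x := by
      refine IsUnit.of_mul_eq_one ⟨(x : L)⁻¹, h⟩ ?_
      exact Subtype.ext (mul_inv_cancel₀ hx')
    exact (residue_ne_zero_iff_isUnit x).2 hu hx
  have h2 := (H.unif x x.2 hx').1 h1
  refine ⟨⟨(x : L) / π, h2⟩, Subtype.ext ?_⟩
  show (x : L) = (ϖ : L) * ((x : L) / π)
  rw [hϖ, mul_div_cancel₀ _ H.pi_ne]

lemma res_pi (H : Loc L O π) {ϖ : O} (hϖ : (ϖ : L) = π) : residue O ϖ = 0 := by
  by_contra h
  have hu := (residue_ne_zero_iff_isUnit ϖ).1 h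
  obtain ⟨y, hy⟩ := hu.exists_right_inv
  have h1 : (π⁻¹ : L) = (y : L) := by
    have : (ϖ : L) * (y : L) = 1 := by exact_mod_cast congrArg Subtype.val hy
    rw [hϖ] at this
    exact inv_eq_of_mul_eq_one_right this
  exact ((H.unif π H.pi_mem H.pi_ne).2 (by rw [div_self H.pi_ne]; exact O.one_mem))
    (h1 ▸ y.2)

lemma rd_zero (H : Loc L O π) {ϖ : O} (hϖ : (ϖ : L) = π) (p : O[X]) (hp : rd O p = 0) :
    ∃ q : O[X], p = C ϖ * q := by
  have h1 : ∀ n, ∃ y : O, p.coeff n = ϖ * y := by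
    intro n
    refine res_zero H hϖ _ ?_
    have := congrArg (fun r => r.coeff n) hp
    simpa [rd] using this
  exact (C_dvd_iff_dvd_coeff ϖ p).2 fun n => h1 n

lemma exists_lift (q : (ResidueField O)[X]) : ∃ p : O[X], rd O p = q :=
  map_surjective _ residue_surjective q

lemma exists_monic_lift (q : (ResidueField O)[X]) (hq : q.Monic) :
    ∃ p : O[X], rd O p = q ∧ p.Monic := by
  have h1 : q ∈ lifts (residue O) := by
    obtain ⟨p, hp⟩ := exists_lift q
    exact ⟨p, hp⟩
  obtain ⟨p, hp, -, hm⟩ := lifts_and_degree_eq_and_monic h1 hq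
  exact ⟨p, hp, hm⟩

/-- a monic `γ` is prime to `f` over `L`. -/
lemma coprime_L (H : Loc L O π) {ϖ : O} (hϖ : (ϖ : L) = π) {f γ b u v : O[X]} (hγ : γ.Monic)
    (hb : IsCoprime (rd O b) (rd O γ)) (e : C ϖ * b = u * f + v * γ) :
    IsCoprime (oL O γ) (oL O f) := by
  obtain ⟨x, y, hxy⟩ := coprime_of_residue hγ hb
  have h1 : (x * u) * f + (x * v + C ϖ * y) * γ = C ϖ := by
    calc (x * u) * f + (x * v + C ϖ * y) * γ = x * (u * f + v * γ) + C ϖ * (y * γ) := by ring
      _ = C ϖ * (x * b + y * γ) := by rw [← e]; ring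
      _ = C ϖ := by rw [hxy, mul_one]
  have h2 := congrArg (oL O) h1
  simp only [oL, Polynomial.map_add, Polynomial.map_mul, Polynomial.map_C] at h2
  have h3 : (algebraMap O L) ϖ = π := hϖ
  rw [h3] at h2
  refine ⟨C π⁻¹ * (x.map (algebraMap O L) * v.map (algebraMap O L) + C π * y.map (algebraMap O L)),
    C π⁻¹ * (x.map (algebraMap O L) * u.map (algebraMap O L)), ?_⟩
  calc _ = C π⁻¹ * (x.map (algebraMap O L) * u.map (algebraMap O L) * f.map (algebraMap O L) +
      (x.map (algebraMap O L) * v.map (algebraMap O L) + C π * y.map (algebraMap O L)) *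
        γ.map (algebraMap O L)) := by ring
    _ = 1 := by rw [h2, ← C_mul, inv_mul_cancel₀ H.pi_ne, C_1]

/-- The map to `L[x]/(f)`. -/
noncomputable def phi (O : ValuationSubring L) (f : O[X]) : O[X] →+* AdjoinRoot (oL O f) :=
  (AdjoinRoot.mk (oL O f)).comp (mapRingHom (algebraMap O L))

lemma phi_apply (f p : O[X]) : phi O f p = AdjoinRoot.mk (oL O f) (oL O p) := rfl

lemma phi_self (f : O[X]) : phi O f f = 0 := by
  rw [phi_apply]; exact AdjoinRoot.mk_self

lemma phi_ker {f : O[X]} (hf : f.Monic) (x : O[X]) (hx : phi O f x = 0) : f ∣ x := by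
  rw [phi_apply, AdjoinRoot.mk_eq_zero] at hx
  exact (map_dvd_map (algebraMap O L) Subtype.val_injective hf).1 hx

lemma local_form (H : Loc L O π) {ϖ : O} (hϖ : (ϖ : L) = π) {f : O[X]} (h : L[X])
    (hyp : ∀ γ : O[X], γ.Monic → Irreducible (rd O γ) → rd O γ ∣ rd O f → ¬ InSq ϖ f γ ∧
      ∃ n : ℤ, Even n ∧ VAL O ϖ f γ n h) (q : (ResidueField O)[X]) (hqm : q.Monic)
    (hqi : Irreducible q) (hqd : q ∣ rd O f) :
    ∃ (γ A B : O[X]) (k m : ℕ), γ.Monic ∧ rd O γ = q ∧ IsCoprime (oL O γ) (oL O f) ∧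
      IsCoprime (rd O A) q ∧ IsCoprime (rd O B) q ∧ Even ((m : ℤ) - (k : ℤ)) ∧
      phi O f A * AdjoinRoot.mk (oL O f) h * phi O f γ ^ k = phi O f B * phi O f γ ^ m := by
  classical
  obtain ⟨γ0, hγ0, hγ0m⟩ := exists_monic_lift q hqm
  by_cases hsq : q ^ 2 ∣ rd O f
  · -- square case
    obtain ⟨hin, n, hn, a, b, k, m, ha, hb, hmk, hd⟩ := hyp γ0 hγ0m (hγ0 ▸ hqi) (hγ0 ▸ hqd)
    have hu : unf O ϖ f γ0 = γ0 := by
      unfold unf; rw [if_pos]; rw [hγ0]; exact hsq
    rw [hu] at hd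
    obtain ⟨abar, hab⟩ := hsq
    obtain ⟨a1, ha1⟩ := exists_lift (O := O) abar
    obtain ⟨b1, hb1⟩ := rd_zero H hϖ (f - γ0 ^ 2 * a1) (by
      simp only [rd, Polynomial.map_sub, Polynomial.map_mul, Polynomial.map_pow] at *
      rw [hab, hγ0, ha1, sub_self])
    have hb1c : IsCoprime (rd O b1) (rd O γ0) := by
      rw [hγ0]
      refine (hqi.coprime_iff_not_dvd.2 ?_).symm
      rintro ⟨cbar, hc⟩
      obtain ⟨b2, hb2⟩ := exists_lift (O := O) cbar
      obtain ⟨c2, hc2⟩ := rd_zero H hϖ (b1 - γ0 * b2) (by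
        simp only [rd, Polynomial.map_sub, Polynomial.map_mul] at *
        rw [hc, hγ0, hb2, sub_self])
      apply hin
      refine ⟨a1, b2, c2, ?_⟩
      have e1 : f = γ0 ^ 2 * a1 + C ϖ * b1 := by rw [← hb1]; ring
      have e2 : b1 = γ0 * b2 + C ϖ * c2 := by rw [← hc2]; ring
      rw [C_pow]
      linear_combination e1 + C ϖ * e2
    refine ⟨γ0, a, b, k, m, hγ0m, hγ0, ?_, hγ0 ▸ ha, hγ0 ▸ hb, hmk ▸ hn, ?_⟩
    · refine coprime_L H hϖ (u := 1) (v := -(γ0 * a1)) hγ0m hb1c ?_
      rw [← hb1]; ring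
    · have := AdjoinRoot.mk_eq_mk.2 hd
      simpa [phi_apply] using this
  · -- simple case
    obtain ⟨abar, hab⟩ := hqd
    have hac : IsCoprime abar q := by
      refine (hqi.coprime_iff_not_dvd.2 ?_).symm
      rintro ⟨c, hc⟩
      exact hsq ⟨c, by rw [hab, hc]; ring⟩
    obtain ⟨a1, ha1⟩ := exists_lift (O := O) abar
    obtain ⟨b1, hb1⟩ := rd_zero H hϖ (f - γ0 * a1) (by
      simp only [rd, Polynomial.map_sub, Polynomial.map_mul] at *
      rw [hab, hγ0, ha1, sub_self])
    have key : ∃ γ b2 : O[X], γ.Monic ∧ rd O γ = q ∧ IsCoprime (rd O b2) q ∧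
        f = γ * a1 + C ϖ * b2 := by
      by_cases hd : q ∣ rd O b1
      · refine ⟨γ0 + C ϖ, b1 - a1, ?_, ?_, ?_, ?_⟩
        · refine hγ0m.add_of_left ?_
          refine lt_of_le_of_lt degree_C_le ?_
          rw [← hγ0m.degree_map (residue O)]
          change 0 < (rd O γ0).degree
          rw [hγ0]
          exact degree_pos_of_irreducible hqi
        · simp only [rd, Polynomial.map_add, Polynomial.map_C] at *
          rw [res_pi H hϖ, hγ0]; simp
        · refine (hqi.coprime_iff_not_dvd.2 ?_).symm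
          intro hd2
          have h3 : q ∣ rd O a1 := by
            have : rd O a1 = rd O b1 - rd O (b1 - a1) := by
              simp only [rd, Polynomial.map_sub]; ring
            rw [this]
            exact dvd_sub hd hd2
          rw [ha1] at h3
          exact hqi.coprime_iff_not_dvd.1 hac.symm h3
        · linear_combination hb1
      · refine ⟨γ0, b1, hγ0m, hγ0, (hqi.coprime_iff_not_dvd.2 hd).symm, ?_⟩
        rw [← hb1]; ring
    obtain ⟨γ, b2, hγm, hγ, hb2, hfe⟩ := key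
    obtain ⟨hin, n, hn, a, b, k, m, ha, hb, hmk, hd⟩ := hyp γ hγm (hγ ▸ hqi)
      (by rw [hγ, hab]; exact dvd_mul_right _ _)
    have hu : unf O ϖ f γ = C ϖ := by
      unfold unf; rw [if_neg]; rw [hγ]; exact hsq
    rw [hu] at hd
    have e1 : phi O f (C ϖ) * phi O f b2 = phi O f γ * phi O f (-a1) := by
      rw [← map_mul, ← map_mul]
      have : C ϖ * b2 = γ * (-a1) + f := by rw [hfe]; ring
      rw [this, map_add, phi_self, add_zero]
    have e2 : phi O f a * AdjoinRoot.mk (oL O f) h * phi O f (C ϖ) ^ k =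
        phi O f b * phi O f (C ϖ) ^ m := by
      have := AdjoinRoot.mk_eq_mk.2 hd
      simpa [phi_apply] using this
    refine ⟨γ, a * b2 ^ m * (-a1) ^ k, b * b2 ^ k * (-a1) ^ m, k, m, hγm, hγ, ?_, ?_, ?_,
      hmk ▸ hn, ?_⟩
    · refine coprime_L H hϖ (u := 1) (v := -a1) hγm (hγ ▸ hb2) ?_
      rw [hfe]; ring
    · rw [hγ] at ha
      simp only [rd, Polynomial.map_mul, Polynomial.map_pow, Polynomial.map_neg] at *
      rw [ha1]
      exact (ha.mul_left hb2.pow_left).mul_left hac.neg_left.pow_left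
    · rw [hγ] at hb
      simp only [rd, Polynomial.map_mul, Polynomial.map_pow, Polynomial.map_neg] at *
      rw [ha1]
      exact (hb.mul_left hb2.pow_left).mul_left hac.neg_left.pow_left
    · simp only [map_mul, map_pow]
      have e3 : phi O f (C ϖ) ^ k * phi O f b2 ^ k = phi O f γ ^ k * phi O f (-a1) ^ k := by
        rw [← mul_pow, e1, mul_pow]
      have e4 : phi O f (C ϖ) ^ m * phi O f b2 ^ m = phi O f γ ^ m * phi O f (-a1) ^ m := by
        rw [← mul_pow, e1, mul_pow]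
      calc _ = phi O f a * AdjoinRoot.mk (oL O f) h * phi O f b2 ^ m *
            (phi O f γ ^ k * phi O f (-a1) ^ k) := by ring
        _ = (phi O f a * AdjoinRoot.mk (oL O f) h * phi O f (C ϖ) ^ k) * phi O f b2 ^ m *
            phi O f b2 ^ k := by rw [← e3]; ring
        _ = phi O f b * phi O f b2 ^ k * (phi O f (C ϖ) ^ m * phi O f b2 ^ m) := by rw [e2]; ring
        _ = _ := by rw [e4]; ring

lemma mul_right_dvd_of_unit {k : Type} [Field k] {q f : k[X]} (hq : q ≠ 0) (h : q ∣ f) :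
    q * C q.leadingCoeff⁻¹ ∣ f := by
  have hu : IsUnit (C q.leadingCoeff⁻¹) :=
    isUnit_C.2 (isUnit_iff_ne_zero.2 (inv_ne_zero (leadingCoeff_ne_zero.2 hq)))
  exact (hu.mul_right_dvd).2 h

/-- The multipliers of `p` into the image of `O[x]`. -/
def mulI (O : ValuationSubring L) (f : O[X]) (p : AdjoinRoot (oL O f)) : Ideal O[X] where
  carrier := {x | ∃ y : O[X], phi O f x * p = phi O f y}
  add_mem' := by
    rintro a b ⟨y, hy⟩ ⟨z, hz⟩
    exact ⟨y + z, by rw [map_add, map_add, add_mul, hy, hz]⟩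
  zero_mem' := ⟨0, by simp⟩
  smul_mem' := by
    rintro c x ⟨y, hy⟩
    exact ⟨c * y, by rw [smul_eq_mul, map_mul, map_mul, mul_assoc, hy]⟩

lemma exists_irr_of_ne_top {k : Type} [Field k] (I : Ideal k[X]) (f : k[X]) (hf : f ∈ I)
    (hf0 : f ≠ 0) (hI : I ≠ ⊤) : ∃ q : k[X], q.Monic ∧ Irreducible q ∧ q ∣ f ∧ ∀ x ∈ I, q ∣ x := by
  obtain ⟨M, hM, hIM⟩ := I.exists_le_maximal hI
  obtain ⟨q, hq⟩ := (inferInstance : M.IsPrincipal)
  change M = Ideal.span {q} at hq
  have hq0 : q ≠ 0 := by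
    rintro rfl
    have : f ∈ M := hIM hf
    rw [hq, Ideal.span_singleton_zero] at this
    exact hf0 this
  have hqi : Irreducible q := by
    have hp : (Ideal.span {q}).IsPrime := hq ▸ hM.isPrime
    exact ((Ideal.span_singleton_prime hq0).1 hp).irreducible
  refine ⟨q * C q.leadingCoeff⁻¹, monic_mul_leadingCoeff_inv hq0, ?_, ?_, ?_⟩
  · exact irreducible_mul_leadingCoeff_inv.2 hqi
  · have : f ∈ M := hIM hf
    rw [hq, Ideal.mem_span_singleton] at this
    exact (mul_right_dvd_of_unit hq0 this)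
  · intro x hx
    have : x ∈ M := hIM hx
    rw [hq, Ideal.mem_span_singleton] at this
    exact (mul_right_dvd_of_unit hq0 this)

end Local

theorem ev2 : EV2Stmt := by
  classical
  intro L _ O π H ϖ f h hϖ hf hcop hyp
  set kk := ResidueField O with hkk
  have hrf0 : rd O f ≠ 0 := (hf.map _).ne_zero
  set S : Finset kk[X] := (UniqueFactorizationMonoid.normalizedFactors (rd O f)).toFinset with hS
  have memS : ∀ q : kk[X], q ∈ S ↔ q.Monic ∧ Irreducible q ∧ q ∣ rd O f := by
    intro q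
    rw [hS, Multiset.mem_toFinset, UniqueFactorizationMonoid.mem_normalizedFactors_iff' hrf0]
    constructor
    · rintro ⟨h1, h2, h3⟩
      refine ⟨?_, h1, h3⟩
      rw [← h2]
      exact monic_normalize h1.ne_zero
    · rintro ⟨h1, h2, h3⟩
      exact ⟨h2, h1.normalize_eq_self, h3⟩
  have loc : ∀ q : kk[X], ∃ (γ A B : O[X]) (k m : ℕ), q ∈ S → γ.Monic ∧ rd O γ = q ∧
      IsCoprime (oL O γ) (oL O f) ∧
      IsCoprime (rd O A) q ∧ IsCoprime (rd O B) q ∧ Even ((m : ℤ) - (k : ℤ)) ∧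
      phi O f A * AdjoinRoot.mk (oL O f) h * phi O f γ ^ k = phi O f B * phi O f γ ^ m := by
    intro q
    by_cases hq : q ∈ S
    · obtain ⟨h1, h2, h3⟩ := (memS q).1 hq
      obtain ⟨γ, A, B, k, m, hh⟩ := local_form H hϖ h hyp q h1 h2 h3
      exact ⟨γ, A, B, k, m, fun _ => hh⟩
    · exact ⟨0, 0, 0, 0, 0, fun h => absurd h hq⟩
  choose γ A B k m hloc using loc
  -- units
  have hunit : ∀ q : kk[X], ∃ g : (AdjoinRoot (oL O f))ˣ, q ∈ S → (g : AdjoinRoot (oL O f)) =
      phi O f (γ q) := by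
    intro q
    by_cases hq : q ∈ S
    · obtain ⟨u, v, huv⟩ := (hloc q hq).2.2.1
      have : AdjoinRoot.mk (oL O f) (oL O (γ q)) * AdjoinRoot.mk (oL O f) u = 1 := by
        have h1 := congrArg (AdjoinRoot.mk (oL O f)) huv
        rw [map_add, map_mul, map_mul, AdjoinRoot.mk_self, mul_zero, add_zero, map_one] at h1
        rw [mul_comm]; exact h1
      exact ⟨⟨_, _, this, by rw [mul_comm]; exact this⟩, fun _ => rfl⟩
    · exact ⟨1, fun h => absurd h hq⟩
  choose g hg using hunit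
  have hev : ∀ q : kk[X], ∃ l : ℤ, q ∈ S → (m q : ℤ) - (k q : ℤ) = l + l := by
    intro q
    by_cases hq : q ∈ S
    · obtain ⟨l, hl⟩ := (hloc q hq).2.2.2.2.2.1
      exact ⟨l, fun _ => hl⟩
    · exact ⟨0, fun h => absurd h hq⟩
  choose l hl using hev
  set s : (AdjoinRoot (oL O f))ˣ := ∏ q ∈ S, g q ^ (-l q) with hs
  set Hh : AdjoinRoot (oL O f) := AdjoinRoot.mk (oL O f) h with hHh
  set p : AdjoinRoot (oL O f) := Hh * (s : AdjoinRoot (oL O f)) ^ 2 with hp
  -- the multipliers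
  have hmult : ∀ q ∈ S, ∃ x y : O[X], phi O f x * p = phi O f y ∧ IsCoprime (rd O x) q ∧
      IsCoprime (rd O y) q := by
    intro q hq
    obtain ⟨h1, h2, h3, h4, h5, h6, h7⟩ := hloc q hq
    have hother : ∀ r ∈ S.erase q, IsCoprime (rd O (γ r)) q := by
      intro r hr
      obtain ⟨hrq, hrS⟩ := Finset.mem_erase.1 hr
      obtain ⟨-, hr2, -⟩ := hloc r hrS
      rw [hr2]
      obtain ⟨hm1, hi1, -⟩ := (memS q).1 hq
      obtain ⟨hm2, hi2, -⟩ := (memS r).1 hrS
      refine hi2.coprime_iff_not_dvd.2 ?_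
      intro hd
      exact hrq (eq_of_monic_of_associated hm2 hm1 (hi2.associated_of_dvd hi1 hd))
    refine ⟨A q * ∏ r ∈ S.erase q, γ r ^ (l r + l r).toNat,
      B q * ∏ r ∈ S.erase q, γ r ^ (-(l r + l r)).toNat, ?_, ?_, ?_⟩
    · -- the identity
      have hprod : ∀ e : kk[X] → ℕ, phi O f (∏ r ∈ S.erase q, γ r ^ e r) =
          ((∏ r ∈ S.erase q, g r ^ (e r : ℤ) : (AdjoinRoot (oL O f))ˣ) :
            AdjoinRoot (oL O f)) := by
        intro e
        rw [map_prod, Units.coe_prod]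
        refine Finset.prod_congr rfl fun r hr => ?_
        rw [map_pow, zpow_natCast, Units.val_pow_eq_pow_val, hg r (Finset.mem_of_mem_erase hr)]
      rw [map_mul, map_mul, hprod (fun r => (l r + l r).toNat),
        hprod (fun r => (-(l r + l r)).toNat)]
      have hs2 : s ^ 2 * ∏ r ∈ S.erase q, g r ^ (((l r + l r).toNat : ℕ) : ℤ) =
          g q ^ (-(l q + l q)) * ∏ r ∈ S.erase q, g r ^ (((-(l r + l r)).toNat : ℕ) : ℤ) := by
        have e1 : s = g q ^ (-l q) * ∏ r ∈ S.erase q, g r ^ (-l r) := by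
          rw [hs, Finset.mul_prod_erase S (fun r => g r ^ (-l r)) hq]
        rw [e1, mul_pow, ← Finset.prod_pow, mul_assoc, ← Finset.prod_mul_distrib]
        congr 1
        · rw [← zpow_natCast, ← zpow_mul]
          congr 1
          push_cast
          ring
        · refine Finset.prod_congr rfl fun r _ => ?_
          rw [← zpow_natCast, ← zpow_mul, ← zpow_add]
          congr 1
          push_cast
          omega
      have h7' : phi O f (A q) * Hh * ((g q ^ k q : (AdjoinRoot (oL O f))ˣ) :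
          AdjoinRoot (oL O f)) = phi O f (B q) * ((g q ^ m q : (AdjoinRoot (oL O f))ˣ) :
          AdjoinRoot (oL O f)) := by
        rw [Units.val_pow_eq_pow_val, Units.val_pow_eq_pow_val, hg q hq]; exact h7
      have h8 : phi O f (A q) * Hh * ((g q ^ (-(l q + l q)) : (AdjoinRoot (oL O f))ˣ) :
          AdjoinRoot (oL O f)) = phi O f (B q) := by
        have e2 : g q ^ (-(l q + l q)) = g q ^ k q * (g q ^ m q)⁻¹ := by
          rw [← zpow_natCast, ← zpow_natCast, ← zpow_neg, ← zpow_add]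
          congr 1
          have := hl q hq
          omega
        rw [e2, Units.val_mul, ← mul_assoc, h7', mul_assoc, Units.mul_inv, mul_one]
      have hs3 := congrArg (fun z : (AdjoinRoot (oL O f))ˣ => (z : AdjoinRoot (oL O f))) hs2
      simp only [Units.val_mul, Units.val_pow_eq_pow_val] at hs3
      rw [hp]
      calc _ = phi O f (A q) * Hh * ((s : AdjoinRoot (oL O f)) ^ 2 *
            ((∏ r ∈ S.erase q, g r ^ (((l r + l r).toNat : ℕ) : ℤ) :
              (AdjoinRoot (oL O f))ˣ) : AdjoinRoot (oL O f))) := by ring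
        _ = (phi O f (A q) * Hh * ((g q ^ (-(l q + l q)) : (AdjoinRoot (oL O f))ˣ) :
          AdjoinRoot (oL O f))) * ((∏ r ∈ S.erase q, g r ^ (((-(l r + l r)).toNat : ℕ) : ℤ) :
              (AdjoinRoot (oL O f))ˣ) : AdjoinRoot (oL O f)) := by
            rw [hs3]; exact (mul_assoc _ _ _).symm
        _ = _ := by rw [h8]
    · simp only [rd, Polynomial.map_mul, Polynomial.map_prod, Polynomial.map_pow] at *
      refine h4.mul_left (IsCoprime.prod_left fun r hr => (hother r hr).pow_left)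
    · simp only [rd, Polynomial.map_mul, Polynomial.map_prod, Polynomial.map_pow] at *
      refine h5.mul_left (IsCoprime.prod_left fun r hr => (hother r hr).pow_left)
  -- `p` is in the image
  have hI : Ideal.map (mapRingHom (residue O)) (mulI O f p) = ⊤ := by
    by_contra hne
    have hfI : rd O f ∈ Ideal.map (mapRingHom (residue O)) (mulI O f p) :=
      Ideal.mem_map_of_mem (mapRingHom (residue O)) (⟨0, by rw [phi_self]; simp⟩ : f ∈ mulI O f p)
    obtain ⟨q, hqm, hqi, hqf, hq⟩ := exists_irr_of_ne_top _ _ hfI hrf0 hne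
    obtain ⟨x, y, hxy, hx, -⟩ := hmult q ((memS q).2 ⟨hqm, hqi, hqf⟩)
    have h1 := hq (rd O x) (Ideal.mem_map_of_mem (mapRingHom (residue O))
      (⟨y, hxy⟩ : x ∈ mulI O f p))
    exact hqi.coprime_iff_not_dvd.1 hx.symm h1
  obtain ⟨x, hx, hx1⟩ := (Ideal.mem_map_iff_of_surjective (mapRingHom (residue O))
    (map_surjective _ residue_surjective)).1 (hI ▸ Submodule.mem_top :
      (1 : kk[X]) ∈ Ideal.map (mapRingHom (residue O)) (mulI O f p))
  have hxc : IsCoprime x f := by
    refine coprime_of_residue hf ?_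
    have : x.map (residue O) = 1 := hx1
    rw [this]
    exact isCoprime_one_left
  have h1I : (1 : O[X]) ∈ mulI O f p := by
    obtain ⟨u, v, huv⟩ := hxc
    rw [← huv]
    exact Ideal.add_mem _ (Ideal.mul_mem_left _ _ hx)
      (Ideal.mul_mem_left _ _ ⟨0, by rw [phi_self]; simp⟩)
  obtain ⟨p0, hp0⟩ := h1I
  rw [map_one, one_mul] at hp0
  obtain ⟨s0, hs0⟩ := AdjoinRoot.mk_surjective (s : AdjoinRoot (oL O f))
  obtain ⟨t0, ht0⟩ := AdjoinRoot.mk_surjective ((s⁻¹ : (AdjoinRoot (oL O f))ˣ) :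
    AdjoinRoot (oL O f))
  refine ⟨s0, p0, ?_, ?_, ?_⟩
  · have h2 : AdjoinRoot.mk (oL O f) (s0 * t0) = AdjoinRoot.mk (oL O f) 1 := by
      rw [map_mul, hs0, ht0, Units.mul_inv, map_one]
    obtain ⟨w, hw⟩ := AdjoinRoot.mk_eq_mk.1 h2
    exact ⟨t0, -w, by linear_combination hw⟩
  · rw [← AdjoinRoot.mk_eq_mk, map_mul, map_pow, hs0]
    exact hp0
  · by_contra hnc
    have : ∃ q : kk[X], Irreducible q ∧ q ∣ rd O p0 ∧ q ∣ rd O f := by
      by_contra hno
      push Not at hno
      exact hnc (isCoprime_of_irreducible_dvd (fun h => hrf0 h.2) fun z hz h1 h2 => hno z hz h1 h2)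
    obtain ⟨q, hqi, hq1, hq2⟩ := this
    have hq0 := hqi.ne_zero
    obtain ⟨X1, Y1, hXY, hX1, hY1⟩ := hmult (q * C q.leadingCoeff⁻¹) ((memS _).2
      ⟨monic_mul_leadingCoeff_inv hq0, irreducible_mul_leadingCoeff_inv.2 hqi,
        mul_right_dvd_of_unit hq0 hq2⟩)
    have h3 : phi O f (X1 * p0 - Y1) = 0 := by
      rw [map_sub, map_mul, ← hp0, hXY, sub_self]
    obtain ⟨w, hw⟩ := phi_ker hf _ h3
    have h4 : rd O Y1 = rd O X1 * rd O p0 - rd O f * rd O w := by
      have := congrArg (rd O) hw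
      simp only [rd, Polynomial.map_sub, Polynomial.map_mul] at this ⊢
      linear_combination -this
    have h5 : q ∣ rd O Y1 := by
      rw [h4]
      exact dvd_sub (hq1.mul_left _) (hq2.mul_right _)
    exact (irreducible_mul_leadingCoeff_inv.2 hqi).coprime_iff_not_dvd.1 hY1.symm
      (mul_right_dvd_of_unit hq0 h5)

end Pool.HYP.H20

namespace Pool.HYP

theorem ev2 : EV2Stmt := H20.ev2

end Pool.HYP
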