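import Pool.Agent.H41.HYP.S4

/-!
# HYP, module PHI: the cusp inequality
-/

set_option autoImplicit false

namespace Pool.HYP.H20

open Finset

/-- `μ` extended by zero. -/
def MM {g : ℕ} (μ : Fin g → ℕ) (k : ℕ) : ℤ := if h : k < g then (μ ⟨k, h⟩ : ℤ) else 0

lemma MM_nonneg {g : ℕ} (μ : Fin g → ℕ) (k : ℕ) : 0 ≤ MM μ k := by
  unfold MM; split_ifs <;> omega

lemma MM_zero {g : ℕ} (μ : Fin g → ℕ) {k : ℕ} (hk : g ≤ k) : MM μ k = 0 := by
  unfold MM; rw [dif_neg (by omega)]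

lemma MM_le {g : ℕ} (μ : Fin g → ℕ) (hμ : Antitone μ) (k : ℕ) : MM μ k ≤ MM μ 0 := by
  unfold MM
  split_ifs with a b
  · have : μ ⟨k, a⟩ ≤ μ ⟨0, b⟩ := hμ (Fin.mk_le_mk.2 (Nat.zero_le k))
    omega
  · omega
  · omega
  · exact le_rfl

lemma MM_step {g h : ℕ} (μ : Fin g → ℕ) (hA : Alw h μ) (k : ℕ) : MM μ k ≤ MM μ (k + 1) + h := by
  obtain ⟨h1, h2⟩ := hA
  unfold MM
  split_ifs with a b
  · have := h2 ⟨k, a⟩ ⟨k + 1, b⟩ rfl
    omega
  · have := h1 ⟨k, a⟩ (by show k + 1 = g; omega)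
    omega
  · omega
  · omega

lemma dd_eq {g : ℕ} (μ : Fin g → ℕ) (i : Fin (2 * g + 1)) :
    dd μ i = MM μ (2 * g - (i : ℕ)) - MM μ (i : ℕ) := by
  unfold dd
  split_ifs with a b
  · rw [MM_zero μ (k := 2 * g - (i : ℕ)) (by omega)]
    unfold MM
    rw [dif_pos a]; ring
  · rw [MM_zero μ (k := (i : ℕ)) (by omega)]
    unfold MM
    rw [dif_pos b]; ring
  · rw [MM_zero μ (k := (i : ℕ)) (by omega), MM_zero μ (k := 2 * g - (i : ℕ)) (by omega)]
    ring

lemma dd_step {g h : ℕ} (μ : Fin g → ℕ) (hA : Alw h μ) (j : Fin (2 * g)) :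
    dd μ j.succ ≤ dd μ j.castSucc + h := by
  have hj := j.2
  rw [dd_eq, dd_eq, Fin.val_succ, Fin.val_castSucc]
  by_cases hg : (j : ℕ) < g
  · rw [MM_zero μ (k := 2 * g - ((j : ℕ) + 1)) (by omega),
      MM_zero μ (k := 2 * g - (j : ℕ)) (by omega)]
    have := MM_step μ hA (j : ℕ)
    omega
  · rw [MM_zero μ (k := (j : ℕ) + 1) (by omega), MM_zero μ (k := (j : ℕ)) (by omega)]
    have := MM_step μ hA (2 * g - ((j : ℕ) + 1))
    rw [show 2 * g - ((j : ℕ) + 1) + 1 = 2 * g - (j : ℕ) by omega] at this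
    omega

theorem phi_ineq : PHIStmt := by
  intro g h μ hμ hA i m hm h2m
  have hg : 0 < g := i.pos
  -- the terms
  set W : Fin (2 * g + 1) → Fin (2 * g + 1) → ℕ := fun i j =>
    if i ≤ j then (-(dd μ i + dd μ j) - h - 1).toNat else 0 with hW
  set V : Fin (2 * g + 1) → Fin (2 * g + 1) → ℕ := fun i j =>
    if i < j then (-(dd μ i + dd μ j) + 1).toNat else 0 with hV
  have hge : ∀ a : Fin (2 * g + 1), -MM μ 0 ≤ dd μ a := by
    intro a
    rw [dd_eq]
    have := MM_le μ hμ (a : ℕ)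
    have := MM_nonneg μ (2 * g - (a : ℕ))
    omega
  have hlast : ∀ a : Fin (2 * g + 1), W a (Fin.last (2 * g)) = 0 := by
    intro a
    have h1 : dd μ (Fin.last (2 * g)) = MM μ 0 := by
      rw [dd_eq, Fin.val_last, Nat.sub_self, MM_zero μ (k := 2 * g) (by omega)]; ring
    have h2 := hge a
    simp only [hW]
    split_ifs
    · rw [h1]; omega
    · rfl
  have hstep : ∀ (a : Fin (2 * g + 1)) (j : Fin (2 * g)), W a j.castSucc ≤ V a j.succ := by
    intro a j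
    have h1 := dd_step μ hA j
    simp only [hW, hV]
    by_cases hc : a ≤ j.castSucc
    · rw [if_pos hc, if_pos (Fin.le_castSucc_iff.1 hc)]
      omega
    · rw [if_neg hc]
      exact Nat.zero_le _
  have hspec : W 0 (⟨g - 1, by omega⟩ : Fin (2 * g)).castSucc + m ≤
      V 0 (⟨g - 1, by omega⟩ : Fin (2 * g)).succ := by
    have h0 : dd μ 0 = -MM μ 0 := by
      rw [dd_eq, MM_zero μ (k := 2 * g - ((0 : Fin (2 * g + 1)) : ℕ)) (by
        show g ≤ 2 * g - 0; omega)]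
      show 0 - MM μ 0 = _
      ring
    have h1 : dd μ (⟨g - 1, by omega⟩ : Fin (2 * g)).castSucc = -MM μ (g - 1) := by
      rw [dd_eq, Fin.val_castSucc]
      show MM μ (2 * g - (g - 1)) - MM μ (g - 1) = _
      rw [MM_zero μ (k := 2 * g - (g - 1)) (by omega)]; ring
    have h2 : dd μ (⟨g - 1, by omega⟩ : Fin (2 * g)).succ = 0 := by
      rw [dd_eq, Fin.val_succ]
      show MM μ (2 * g - (g - 1 + 1)) - MM μ (g - 1 + 1) = _
      rw [MM_zero μ (k := 2 * g - (g - 1 + 1)) (by omega), MM_zero μ (k := g - 1 + 1) (by omega)]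
      ring
    have h3 : 2 * MM μ (g - 1) ≤ h := by
      unfold MM
      rw [dif_pos (by omega)]
      have := hA.1 ⟨g - 1, by omega⟩ (by show g - 1 + 1 = g; omega)
      omega
    have h4 : (m : ℤ) ≤ MM μ 0 := by
      refine le_trans ?_ (MM_le μ hμ (i : ℕ))
      unfold MM
      rw [dif_pos i.2]
      exact_mod_cast hm
    simp only [hW, hV]
    rw [if_pos (Fin.zero_le _), if_pos (by rw [Fin.lt_def]; exact Nat.succ_pos _), h0, h1, h2]
    omega
  -- rows
  have hrow : ∀ a : Fin (2 * g + 1), ∑ j, W a j ≤ ∑ j, V a j := by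
    intro a
    rw [Fin.sum_univ_castSucc, Fin.sum_univ_succ, hlast a, add_zero]
    exact le_trans (Finset.sum_le_sum fun j _ => hstep a j) (Nat.le_add_left _ _)
  have hrow0 : ∑ j, W 0 j + m ≤ ∑ j, V 0 j := by
    rw [Fin.sum_univ_castSucc, Fin.sum_univ_succ, hlast 0, add_zero]
    refine le_trans ?_ (Nat.le_add_left _ _)
    rw [← Finset.add_sum_erase _ _ (Finset.mem_univ (⟨g - 1, by omega⟩ : Fin (2 * g))),
      ← Finset.add_sum_erase _ (fun j : Fin (2 * g) => V 0 j.succ)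
        (Finset.mem_univ (⟨g - 1, by omega⟩ : Fin (2 * g)))]
    have := Finset.sum_le_sum (s := Finset.univ.erase (⟨g - 1, by omega⟩ : Fin (2 * g)))
      fun j _ => hstep 0 j
    omega
  have hEW : EW μ h = ∑ a, ∑ j, W a j := rfl
  have hEV : EV μ = ∑ a, ∑ j, V a j := rfl
  rw [hEW, hEV, Fin.sum_univ_succ (fun a => ∑ j, W a j), Fin.sum_univ_succ (fun a => ∑ j, V a j)]
  have := Finset.sum_le_sum (s := Finset.univ) fun (a : Fin (2 * g)) _ => hrow a.succ
  omega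

end Pool.HYP.H20

namespace Pool.HYP

theorem phi : PHIStmt := H20.phi_ineq

end Pool.HYP
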