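import Pool.Agent.H41.HYP.S7

/-!
# HYP, module TRN, part 1: coefficients of translates
-/

set_option autoImplicit false

namespace Pool.HYP.H20

open Polynomial

section General

variable {R : Type} [CommRing R]

lemma coeff_comp_add (f : R[X]) (n : ℕ) (hn : f.natDegree ≤ n) (r : R) (m : ℕ) :
    (f.comp (X + C r)).coeff m =
      ∑ k ∈ Finset.range (n + 1), f.coeff k * (r ^ (k - m) * (k.choose m : R)) := by
  rw [Polynomial.comp, eval₂_eq_sum_range' C (Nat.lt_succ_of_le hn), finsetSum_coeff]
  refine Finset.sum_congr rfl fun k _ => ?_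
  rw [coeff_C_mul, coeff_X_add_C_pow]

lemma comp_comp_add (f : R[X]) (r : R) : (f.comp (X + C r)).comp (X + C (-r)) = f := by
  rw [comp_assoc]
  simp

lemma comp_comp_add' (f : R[X]) (r : R) : (f.comp (X + C (-r))).comp (X + C r) = f := by
  rw [comp_assoc]
  simp

lemma monic_comp_add {f : R[X]} (hf : f.Monic) (r : R) : (f.comp (X + C r)).Monic := by
  nontriviality R
  exact hf.comp (monic_X_add_C r) (by rw [natDegree_X_add_C]; exact one_ne_zero)

lemma natDegree_comp_add [IsDomain R] (f : R[X]) (r : R) :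
    (f.comp (X + C r)).natDegree = f.natDegree := by
  rw [natDegree_comp, natDegree_X_add_C, mul_one]

lemma irreducible_comp_add [IsDomain R] (f : R[X]) (r : R) :
    Irreducible (f.comp (X + C r)) ↔ Irreducible f := by
  have h := MulEquiv.irreducible_iff (algEquivAevalXAddC r : R[X] ≃ₐ[R] R[X]) (x := f)
  have e : (algEquivAevalXAddC r : R[X] ≃ₐ[R] R[X]) f = f.comp (X + C r) := by
    simp [algEquivAevalXAddC, algEquivOfCompEqX, aeval_def, Polynomial.comp]
  rw [e] at h
  exact h

lemma separable_comp_add {f : R[X]} (hf : f.Separable) (r : R) :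
    (f.comp (X + C r)).Separable := by
  obtain ⟨a, b, hab⟩ := hf
  refine ⟨a.comp (X + C r), b.comp (X + C r), ?_⟩
  have h := congrArg (fun p => p.comp (X + C r)) hab
  simp only [add_comp, mul_comp, one_comp] at h
  rw [derivative_comp]
  simpa using h

end General

section Two

variable {F : Type} [Field F]

/-- the degree condition. -/
def DegC (n h : ℕ) (f : F[X][X]) : Prop := ∀ i ≤ n, (f.coeff (n - i)).natDegree ≤ i * h

lemma degC_comp {n h : ℕ} {f : F[X][X]} (hf : DegC n h f) (hn : f.natDegree ≤ n) (r : F[X])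
    (hr : r.natDegree ≤ h) : DegC n h (f.comp (X + C r)) := by
  intro i hi
  rw [coeff_comp_add f n hn]
  refine natDegree_sum_le_of_forall_le _ _ fun k hk => ?_
  have hk' : k ≤ n := Nat.lt_succ_iff.1 (Finset.mem_range.1 hk)
  by_cases hkm : k < n - i
  · rw [Nat.choose_eq_zero_of_lt hkm]; simp
  have h1 := hf (n - k) (Nat.sub_le _ _)
  rw [Nat.sub_sub_self hk'] at h1
  have h2 : (r ^ (k - (n - i))).natDegree ≤ (k - (n - i)) * h :=
    natDegree_pow_le_of_le _ hr
  have h3 : (r ^ (k - (n - i)) * ((k.choose (n - i) : ℕ) : F[X])).natDegree ≤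
      (k - (n - i)) * h := by
    refine natDegree_mul_le.trans ?_
    rw [natDegree_natCast]
    simpa using h2
  refine natDegree_mul_le.trans ((add_le_add h1 h3).trans ?_)
  rw [← Nat.add_mul]
  exact Nat.mul_le_mul_right _ (by omega)

lemma top_comp {n h : ℕ} {f : F[X][X]} (hf : DegC n h f) (hn : f.natDegree ≤ n) (r : F[X])
    (hr : r.natDegree ≤ h) :
    topOf n h (f.comp (X + C r)) = (topOf n h f).comp (X + C (r.coeff h)) := by
  have hco : ∀ (f : F[X][X]) (m : ℕ), m ≤ n → (topOf n h f).coeff m =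
      (f.coeff m).coeff ((n - m) * h) := by
    intro f m hm
    unfold topOf
    rw [finsetSum_coeff]
    simp only [coeff_monomial]
    rw [Finset.sum_eq_single (n - m)]
    · rw [Nat.sub_sub_self hm, if_pos rfl]
    · intro b hb hbm
      have : b ≤ n := Nat.lt_succ_iff.1 (Finset.mem_range.1 hb)
      rw [if_neg (by omega)]
    · intro hb
      exact absurd (Finset.mem_range.2 (Nat.lt_succ_of_le (Nat.sub_le _ _))) hb
  have hdeg : ∀ f : F[X][X], (topOf n h f).natDegree ≤ n := by
    intro f
    unfold topOf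
    refine natDegree_sum_le_of_forall_le _ _ fun k hk => ?_
    exact (natDegree_monomial_le _).trans (Nat.sub_le _ _)
  ext m
  by_cases hm : m ≤ n
  · rw [hco _ m hm, coeff_comp_add f n hn, coeff_comp_add _ n (hdeg f), finsetSum_coeff]
    refine Finset.sum_congr rfl fun k hk => ?_
    have hk' : k ≤ n := Nat.lt_succ_iff.1 (Finset.mem_range.1 hk)
    by_cases hkm : k < m
    · rw [Nat.choose_eq_zero_of_lt hkm]; simp
    rw [hco _ k hk']
    have e1 : (n - m) * h = (n - k) * h + (k - m) * h := by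
      rw [← Nat.add_mul]; congr 1; omega
    have h1 := hf (n - k) (Nat.sub_le _ _)
    rw [Nat.sub_sub_self hk'] at h1
    have h2 : (r ^ (k - m)).natDegree ≤ (k - m) * h := natDegree_pow_le_of_le _ hr
    rw [← mul_assoc, ← C_eq_natCast, coeff_mul_C, e1, coeff_mul_add_eq_of_natDegree_le h1 h2,
      coeff_pow_of_natDegree_le hr, mul_assoc]
  · rw [coeff_eq_zero_of_natDegree_lt (lt_of_le_of_lt (hdeg _) (not_le.1 hm)),
      coeff_eq_zero_of_natDegree_lt]
    refine lt_of_le_of_lt ?_ (not_le.1 hm)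
    refine natDegree_comp_le.trans ?_
    rw [natDegree_X_add_C, mul_one]
    exact hdeg f

lemma hyp_comp {g h : ℕ} {f : F[X][X]} (hf : f ∈ Hyp F g h) (r : F[X]) (hr : r.natDegree ≤ h) :
    f.comp (X + C r) ∈ Hyp F g h := by
  obtain ⟨h1, h2, h3, h4⟩ := hf
  refine ⟨monic_comp_add h1 r, by rw [natDegree_comp_add, h2], degC_comp h3 h2.le r hr, ?_⟩
  have e : fK (f.comp (X + C r)) = (fK f).comp (X + C (algebraMap F[X] (RatFunc F) r)) := by
    simp [fK, Polynomial.map_comp]
  rw [e]
  exact separable_comp_add h4 _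

lemma coeff_2g {g h : ℕ} {f : F[X][X]} (hf : f ∈ Hyp F g h) (c : F[X]) :
    (f.comp (X - C c)).coeff (2 * g) = f.coeff (2 * g) - (2 * g + 1 : ℕ) * c := by
  obtain ⟨h1, h2, h3, h4⟩ := hf
  have e : (X - C c : F[X][X]) = X + C (-c) := by rw [C_neg, sub_eq_add_neg]
  rw [e, coeff_comp_add f (2 * g + 1) h2.le, Finset.sum_range_succ, Finset.sum_range_succ,
    Finset.sum_eq_zero]
  · have h5 : f.coeff (2 * g + 1) = 1 := by rw [← h2]; exact h1.coeff_natDegree
    rw [h5]
    simp
    ring
  · intro k hk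
    rw [Nat.choose_eq_zero_of_lt (Finset.mem_range.1 hk)]
    simp

lemma mini_comp {f : F[X][X]} (r : F[X]) (h : Mini f) : Mini (f.comp (X + C r)) := by
  intro P hP hi c f' hf' heq
  refine h P hP hi (c + r) f' hf' ?_
  have h1 := congrArg (fun p => p.comp (X + C (-r))) heq
  simp only [comp_comp_add] at h1
  rw [h1, comp_assoc]
  congr 1
  simp only [sub_comp, X_comp, C_comp, C_neg, C_add]
  ring

end Two

end Pool.HYP.H20
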